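import Pool.Agent.helper77.MC.Spec

/-! Row mc:BA of project MC (MP_7e34bc_co). -/

set_option autoImplicit false

namespace Pool.Agent.helper77.MC

open Finset Numbering

private theorem BA_mem {β : Type} [Fintype β] (y : β → ℝ) (c : ℝ) (m : ℕ) (J : Finset β) :
    J ∈ fam y c m ↔ ∑ i ∈ J, y i = c ∧ #J ≤ m := by
  classical
  unfold fam
  simp only [mem_filter, mem_univ, true_and]

theorem BA (h1 : SG_stmt) (h2 : ST_stmt) (h3 : FA_stmt) : BA_stmt := by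
  intro β _ _ y c₁ c₂ m w g hy hc₁ hc₂ hw hg1 hg2 t ht
  have htm := (BA_mem y (c₁ + c₂) m t).1 ht
  set P : ℝ := (#(prefixed t : Finset (Numbering β)) : ℝ) with hP
  have hP0 : 0 ≤ P := Nat.cast_nonneg _
  obtain ⟨hf1a, hf1b, hf1c⟩ := h3 β y c₁ (c₁ + c₂) (m + 1) m hy hc₁
  obtain ⟨hf2a, hf2b, hf2c⟩ := h3 β y c₂ (c₁ + c₂) (m + 1) m hy hc₂
  obtain ⟨hf3a, hf3b, -⟩ := h3 β y (c₁ + c₂) (c₁ + c₂) m m hy (by linarith)
  rw [sum_add_distrib, sum_add_distrib]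
  have hS1 := h2 β t (fam y c₁ (m + 1)) g fun J hJ => hf1c (by linarith) J hJ t ht
  have hS2 := h2 β t (fam y c₂ (m + 1)) g fun J hJ => hf2c (by linarith) J hJ t ht
  have hS3 : ∑ f ∈ (prefixed t : Finset (Numbering β)), ∑ J ∈ fam y (c₁ + c₂) m, (if f ∈ prefixed J then g #J else 0) = P * g #t := by
    have h4 : ∀ f ∈ (prefixed t : Finset (Numbering β)), ∑ J ∈ fam y (c₁ + c₂) m, (if f ∈ prefixed J then g #J else 0) = g #t := by
      intro f hf
      rw [sum_eq_single_of_mem t ht]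
      · rw [if_pos hf]
      · intro J hJ hne
        rw [if_neg]
        intro hfJ
        by_cases hJt : J ⊆ t
        · exact hne (hf3b J hJ t ht hJt)
        · by_cases htJ : t ⊆ J
          · exact hne (hf3b t ht J hJ htJ).symm
          · exact (Finset.disjoint_left.1 (disjoint_prefixed_prefixed hJt htJ)) hfJ hf
    rw [sum_congr rfl h4, sum_const, nsmul_eq_mul]
  rw [hS1, hS2, hS3]
  set A1 := (fam y c₁ (m + 1)).filter (fun J => J ⊆ t) with hA1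
  set A2 := (fam y c₂ (m + 1)).filter (fun J => J ⊆ t) with hA2
  have hsd : ∀ J : Finset β, J ⊆ t → ∑ i ∈ t \ J, y i = ∑ i ∈ t, y i - ∑ i ∈ J, y i := by
    intro J hJ
    have := sum_sdiff (f := y) hJ
    linarith
  have hA1m : ∀ J ∈ A1, J ⊆ t ∧ ∑ i ∈ J, y i = c₁ ∧ 1 ≤ #J ∧ #J + 1 ≤ #t ∧ t \ J ∈ A2 := by
    intro J hJ
    rw [hA1, mem_filter] at hJ
    obtain ⟨hJ1, hJ2⟩ := hJ
    have h4 := (BA_mem y c₁ (m + 1) J).1 hJ1
    have h5 : ∑ i ∈ t \ J, y i = c₂ := by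
      rw [hsd J hJ2, htm.1, h4.1]
      ring
    have h6 : (t \ J).Nonempty := by
      rw [nonempty_iff_ne_empty]
      intro h7
      rw [h7, sum_empty] at h5
      linarith
    have h7 : #(t \ J) = #t - #J := card_sdiff_of_subset hJ2
    have h8 : 0 < #(t \ J) := card_pos.2 h6
    have h9 := card_le_card hJ2
    refine ⟨hJ2, h4.1, card_pos.2 (hf1a J hJ1).1, by omega, ?_⟩
    rw [hA2, mem_filter]
    refine ⟨(BA_mem y c₂ (m + 1) _).2 ⟨h5, ?_⟩, sdiff_subset⟩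
    have := htm.2
    omega
  have hA2m : ∀ J ∈ A2, t \ J ∈ A1 := by
    intro J hJ
    rw [hA2, mem_filter] at hJ
    obtain ⟨hJ1, hJ2⟩ := hJ
    have h4 := (BA_mem y c₂ (m + 1) J).1 hJ1
    rw [hA1, mem_filter]
    refine ⟨(BA_mem y c₁ (m + 1) _).2 ⟨?_, ?_⟩, sdiff_subset⟩
    · rw [hsd J hJ2, htm.1, h4.1]
      ring
    · have h7 : #(t \ J) = #t - #J := card_sdiff_of_subset hJ2
      have := htm.2
      omega
  have hbij : ∑ J ∈ A2, g #J * ((#t).choose #J : ℝ)⁻¹ = ∑ J ∈ A1, g (#t - #J) * ((#t).choose #J : ℝ)⁻¹ := by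
    symm
    refine sum_bij' (fun J _ => t \ J) (fun J _ => t \ J) ?_ ?_ ?_ ?_ ?_
    · intro J hJ
      exact (hA1m J hJ).2.2.2.2
    · intro J hJ
      exact hA2m J hJ
    · intro J hJ
      exact Finset.sdiff_sdiff_eq_self (hA1m J hJ).1
    · intro J hJ
      rw [hA2, mem_filter] at hJ
      exact Finset.sdiff_sdiff_eq_self hJ.2
    · intro J hJ
      have h4 := hA1m J hJ
      have h7 : #(t \ J) = #t - #J := card_sdiff_of_subset h4.1
      have h9 := card_le_card h4.1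
      rw [h7, Nat.choose_symm h9]
  rw [hbij]
  have hj : #t ≤ m := htm.2
  have hnn : 0 ≤ 2 * w - g #t := by
    have := hg1 #t (by omega)
    linarith
  have hsum : ∑ J ∈ A1, g #J * ((#t).choose #J : ℝ)⁻¹ + ∑ J ∈ A1, g (#t - #J) * ((#t).choose #J : ℝ)⁻¹ ≤ 2 * w - g #t := by
    rw [← sum_add_distrib]
    have h4 : ∑ J ∈ A1, (g #J * ((#t).choose #J : ℝ)⁻¹ + g (#t - #J) * ((#t).choose #J : ℝ)⁻¹) ≤
        ∑ J ∈ A1, (2 * w - g #t) * ((#t).choose #J : ℝ)⁻¹ := by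
      refine sum_le_sum fun J hJ => ?_
      rw [← add_mul]
      refine mul_le_mul_of_nonneg_right ?_ (by positivity)
      have h5 := hA1m J hJ
      have h6 := hg2 #t hj #J h5.2.2.1 h5.2.2.2.1
      linarith
    refine h4.trans ?_
    rw [← mul_sum]
    have h5 := h1 β t A1 (fun s hs => (hA1m s hs).1) (fun s hs s' hs' hss => by
      rw [hA1, mem_filter] at hs hs'
      exact hf1b s hs.1 s' hs'.1 hss)
    calc (2 * w - g #t) * ∑ J ∈ A1, ((#t).choose #J : ℝ)⁻¹ ≤ (2 * w - g #t) * 1 := mul_le_mul_of_nonneg_left h5 hnn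
      _ = 2 * w - g #t := mul_one _
  have h6 := mul_le_mul_of_nonneg_left hsum hP0
  have h7 : P * ∑ J ∈ A1, g #J * ((#t).choose #J : ℝ)⁻¹ + P * ∑ J ∈ A1, g (#t - #J) * ((#t).choose #J : ℝ)⁻¹ + P * g #t =
      P * (∑ J ∈ A1, g #J * ((#t).choose #J : ℝ)⁻¹ + ∑ J ∈ A1, g (#t - #J) * ((#t).choose #J : ℝ)⁻¹) + P * g #t := by ring
  rw [h7]
  linarith

end Pool.Agent.helper77.MC
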